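import Pool.Agent.MP_f5aac0_gt.Mg.Main

namespace Pool.Agent.Results.MP_f5aac0_gt.HomogeneouslyAdequate

open Pool.Agent.MP_f5aac0_gt

theorem result (D : Diagram) (hP : D.Planar) (o : D.Orientation) (S : Finset (Fin D.n))
    (ha : D.Adequate S) (hh : D.Homogeneous S) (hE : ¬ Elementary D) :
    ∃ i j : ℤ, HasZ2 (Diagram.dif o (i - 1) i j) (Diagram.dif o i (i + 1) j) :=
  main D hP o S ha hh hE

end Pool.Agent.Results.MP_f5aac0_gt.HomogeneouslyAdequate
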